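import Pool.Agent.H17.SD.Targets
import Pool.Agent.H66.VG.G1

/-!
Board sfg_modules, row DEX: the partial derivatives.
-/

set_option autoImplicit false

open MvPolynomial SC Pool.Agent.H27.LV
open Pool.Agent.H92.SF Pool.Agent.H3.SF Pool.Agent.H17.SD

namespace Pool.Agent.H40.SFG

theorem pf_DEX : T_DEX := by
  intro k F _ _ _ _ u hu hfd
  have hal0 : Algebra.IsAlgebraic (kF k u) F := inferInstance
  have hal : Algebra.IsAlgebraic (Algebra.adjoin k (Set.range u)) F :=
    IntermediateField.isAlgebraic_adjoin_iff_top.1 hal0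
  have hb : IsTranscendenceBasis k u := hu.isTranscendenceBasis_iff_isAlgebraic.2 hal
  choose dd hdd using fun l : Fin 3 => Pool.Agent.H66.VG.g1 k F (Fin 3) u hb
    (fun j => if l = j then 1 else 0)
  exact ⟨dd, hdd⟩

end Pool.Agent.H40.SFG
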